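import Pool.Agent.Helper70.BRT.Spec

/-! # `Σ₁` induction without `Π₁` collection, and its connection with `RCA₀` -/

namespace Pool.Agent.Helper70.BRT

universe u

variable {M : Type u} [PModel M] {A : ℕ → Set M}
variable {Γ Δ : Type u} [Ctx M Γ] [Ctx M Δ]

/-- `Σ₁` induction for `(M, A)`. -/
structure IS1 (A : ℕ → Set M) : Prop where
  ind : ∀ P : M → Prop, Sig1 A P → P 0 → (∀ x, P x → P (x + 1)) → ∀ x, P x

theorem Nice.is1 (hA : Nice A) : IS1 A := ⟨hA.ind⟩

theorem IS1.pure (hA : IS1 A) : IS1 (fun _ : ℕ => (∅ : Set M)) :=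
  ⟨fun P hP => hA.ind P (hP.of_pure A)⟩

theorem IS1.coll1 (hA : IS1 A) : Coll1 A := by
  intro R hR a h
  obtain ⟨Q, hQ, hRQ⟩ := sig1_iff.mp hR
  have key : ∀ x : M, (a < x ∨ ∃ b, ∀ x', x' < x → ∃ y, y < b ∧ ∃ w, w < b ∧ Q ((x', y), w)) := by
    refine hA.ind _ ?_ ?_ ?_
    · refine (D0.lt (Poly.const a) PMap.id.toPoly).sig1.or ?_
      refine Sig1.ex (R := fun x b => ∀ x', x' < x → ∃ y, y < b ∧ ∃ w, w < b ∧ Q ((x', y), w)) ?_
      refine D0.sig1 ?_
      refine D0.ball (R := fun (g : M × M) x' => ∃ y, y < g.2 ∧ ∃ w, w < g.2 ∧ Q ((x', y), w))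
        PMap.id.fst.toPoly ?_
      refine D0.bex (R := fun (g : (M × M) × M) y => ∃ w, w < g.1.2 ∧ Q ((g.2, y), w))
        PMap.id.fst.snd.toPoly ?_
      refine D0.bex (R := fun (g : ((M × M) × M) × M) w => Q ((g.1.2, g.2), w))
        PMap.id.fst.fst.snd.toPoly ?_
      exact hQ.comp ((PMap.id.fst.fst.snd.prodMk PMap.id.fst.snd).prodMk PMap.id.snd)
    · right
      exact ⟨0, fun x' hx' => absurd hx' (not_lt_zero'' x')⟩
    · intro x hx
      rcases hx with hx | ⟨b, hb⟩
      · exact Or.inl (hx.trans (lt_add_one' x))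
      · rcases le_or_gt a x with hax | hxa
        · exact Or.inl (lt_add_one_iff'.mpr hax)
        · right
          obtain ⟨y, hy⟩ := h x hxa
          obtain ⟨w, hw⟩ := (hRQ (x, y)).mp hy
          refine ⟨b + y + w + 1, fun x' hx' => ?_⟩
          rcases eq_or_lt_of_le (lt_add_one_iff'.mp hx') with rfl | hlt
          · refine ⟨y, lt_add_one_iff'.mpr ?_, w, lt_add_one_iff'.mpr ?_, hw⟩
            · exact le_trans le_add_self le_self_add
            · exact le_add_self
          · obtain ⟨y', hy', w', hw', hq⟩ := hb x' hlt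
            have hbb : b ≤ b + y + w + 1 :=
              le_trans (le_trans le_self_add le_self_add) le_self_add
            exact ⟨y', hy'.trans_le hbb, w', hw'.trans_le hbb, hq⟩
  rcases key a with hk | ⟨b, hb⟩
  · exact absurd hk (lt_irrefl a)
  · refine ⟨b, fun x hx => ?_⟩
    obtain ⟨y, hy, w, -, hw⟩ := hb x hx
    exact ⟨y, hy, (hRQ (x, y)).mpr ⟨w, hw⟩⟩

theorem IS1.base (hA : IS1 A) : Base A := ⟨fun P hP => hA.ind P hP.1, hA.coll1⟩

theorem IS1.indPi (hA : IS1 A) {P : M → Prop} (hP : Pi1 A P) (h0 : P 0)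
    (hs : ∀ x, P x → P (x + 1)) : ∀ x, P x := by
  intro a
  by_contra ha
  have h1 : ∀ x, (x ≤ a → ∃ y, x + y = a ∧ ¬ P y) := by
    refine hA.ind _ ?_ ?_ ?_
    · have h2 : Sig1 A (fun x : M => a < x ∨ ∃ y, x + y = a ∧ ¬ P y) := by
        refine (D0.lt (Poly.const a) PMap.id.toPoly).sig1.or ?_
        refine Sig1.ex (R := fun x y => x + y = a ∧ ¬ P y) ?_
        exact ((D0.eq (PMap.id.fst.toPoly.add PMap.id.snd.toPoly) (Poly.const a)).sig1).and
          (Sig1.comp (R := fun y => ¬ P y) hP PMap.id.snd.rec)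
      refine h2.congr fun x => ?_
      constructor
      · intro h
        by_cases hx : x ≤ a
        · exact Or.inr (h hx)
        · exact Or.inl (not_le.mp hx)
      · rintro (h | h) hx
        · exact absurd hx (not_le.mpr h)
        · exact h
    · intro _
      exact ⟨a, zero_add a, ha⟩
    · intro x hx hxa
      obtain ⟨y, hy, hPy⟩ := hx ((lt_add_one' x).le.trans hxa)
      have hy0 : y ≠ 0 := by
        rintro rfl
        exact hPy h0
      obtain ⟨z, rfl⟩ := exists_pred hy0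
      refine ⟨z, ?_, fun hz => hPy (hs z hz)⟩
      rw [← hy]
      ring
  obtain ⟨y, hy, hPy⟩ := h1 a le_rfl
  have : y = 0 := by
    have h2 : a + y = a + 0 := by rw [hy, add_zero]
    exact add_left_cancel h2
  rw [this] at hPy
  exact hPy h0

/-! ## Translation of bounded formulas with constants into `Form` -/

open BRTStmt

/-- The constants of a term. -/
def Tm.consts : Tm M → Set M
  | .var _ => ∅
  | .const c => {c}
  | .add s t => s.consts ∪ t.consts
  | .mul s t => s.consts ∪ t.consts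

/-- The constants of a formula. -/
def Fm.consts : Fm M → Set M
  | .eq s t => s.consts ∪ t.consts
  | .lt s t => s.consts ∪ t.consts
  | .mem _ t => t.consts
  | .neg φ => φ.consts
  | .and φ ψ => φ.consts ∪ ψ.consts
  | .ball t φ => t.consts ∪ φ.consts

theorem Tm.consts_countable (t : Tm M) : t.consts.Countable := by
  induction t with
  | var i => exact Set.countable_empty
  | const c => exact Set.countable_singleton c
  | add s t h1 h2 => exact h1.union h2
  | mul s t h1 h2 => exact h1.union h2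

theorem Fm.consts_countable (φ : Fm M) : φ.consts.Countable := by
  induction φ with
  | eq s t => exact s.consts_countable.union t.consts_countable
  | lt s t => exact s.consts_countable.union t.consts_countable
  | mem i t => exact t.consts_countable
  | neg φ h => exact h
  | and φ ψ h1 h2 => exact h1.union h2
  | ball t φ h => exact t.consts_countable.union h

/-- Translation of terms: at depth `d`, the variable `i < d` is kept, the variable `d + i` becomes
`d + 2 i` and the constant `c` becomes the variable `d + 2 (idx c) + 1`. -/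
def Tm.tr (idx : M → ℕ) (d : ℕ) : Tm M → NTerm
  | .var i => .var (if i < d then i else d + 2 * (i - d))
  | .const c => .var (d + 2 * idx c + 1)
  | .add s t => .add (s.tr idx d) (t.tr idx d)
  | .mul s t => .mul (s.tr idx d) (t.tr idx d)

/-- Translation of formulas. -/
def Fm.tr (idx : M → ℕ) : Fm M → ℕ → Form
  | .eq s t, d => .eq (s.tr idx d) (t.tr idx d)
  | .lt s t, d => .lt (s.tr idx d) (t.tr idx d)
  | .mem i t, d => .mem (t.tr idx d) i
  | .neg φ, d => .neg (φ.tr idx d)
  | .and φ ψ, d => .and (φ.tr idx d) (ψ.tr idx d)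
  | .ball t φ, d => .allN (.imp (.lt (.var 0) (t.tr idx d).shift) (φ.tr idx (d + 1)))

theorem Fm.tr_delta (idx : M → ℕ) (φ : Fm M) : ∀ d, IsDelta00 (φ.tr idx d) := by
  induction φ with
  | eq s t => intro d; exact .eq _ _
  | lt s t => intro d; exact .lt _ _
  | mem i t => intro d; exact .mem _ _
  | neg φ h => intro d; exact .neg (h d)
  | and φ ψ h1 h2 => intro d; exact .and (h1 d) (h2 d)
  | ball t φ h => intro d; exact .ball _ (h (d + 1))

theorem NTerm.eval_shift (t : NTerm) (x : M) (v : ℕ → M) :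
    t.shift.eval (scons x v) = t.eval v := by
  induction t with
  | var i => rfl
  | zero => rfl
  | one => rfl
  | add s t h1 h2 => simp only [NTerm.shift, NTerm.eval, h1, h2]
  | mul s t h1 h2 => simp only [NTerm.shift, NTerm.eval, h1, h2]

/-- The relation between the two assignments at depth `d`. -/
structure TrRel (cs : ℕ → M) (d : ℕ) (v w : ℕ → M) : Prop where
  low : ∀ i, i < d → w i = v i
  even : ∀ i, w (d + 2 * i) = v (d + i)
  odd : ∀ j, w (d + 2 * j + 1) = cs j

theorem TrRel.cons {cs : ℕ → M} {d : ℕ} {v w : ℕ → M} (h : TrRel cs d v w) (x : M) :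
    TrRel cs (d + 1) (cons x v) (scons x w) := by
  refine ⟨fun i hi => ?_, fun i => ?_, fun j => ?_⟩
  · rcases i with _ | i
    · rfl
    · exact h.low i (by omega)
  · have e1 : d + 1 + 2 * i = (d + 2 * i) + 1 := by omega
    have e2 : d + 1 + i = (d + i) + 1 := by omega
    rw [e1, e2]
    exact h.even i
  · have e1 : d + 1 + 2 * j + 1 = (d + 2 * j + 1) + 1 := by omega
    rw [e1]
    exact h.odd j

theorem Tm.eval_tr {cs : ℕ → M} {idx : M → ℕ} (t : Tm M) (hc : ∀ c ∈ t.consts, cs (idx c) = c)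
    {d : ℕ} {v w : ℕ → M} (h : TrRel cs d v w) : (t.tr idx d).eval w = t.eval v := by
  induction t with
  | var i =>
    change w (if i < d then i else d + 2 * (i - d)) = v i
    split_ifs with hi
    · exact h.low i hi
    · rw [h.even]
      congr 1
      omega
  | const c =>
    change w (d + 2 * idx c + 1) = c
    rw [h.odd]
    exact hc c rfl
  | add s t h1 h2 =>
    change (s.tr idx d).eval w + (t.tr idx d).eval w = s.eval v + t.eval v
    rw [h1 (fun c h => hc c (Or.inl h)), h2 (fun c h => hc c (Or.inr h))]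
  | mul s t h1 h2 =>
    change (s.tr idx d).eval w * (t.tr idx d).eval w = s.eval v * t.eval v
    rw [h1 (fun c h => hc c (Or.inl h)), h2 (fun c h => hc c (Or.inr h))]

theorem Fm.eval_tr {cs : ℕ → M} {idx : M → ℕ} (𝒮 : Set (Set M)) (A : ℕ → Set M) (φ : Fm M) :
    (∀ c ∈ φ.consts, cs (idx c) = c) → ∀ (d : ℕ) (v w : ℕ → M), TrRel cs d v w →
      ((φ.tr idx d).eval 𝒮 A w ↔ φ.eval A v) := by
  induction φ with
  | eq s t =>
    intro hc d v w h
    change (s.tr idx d).eval w = (t.tr idx d).eval w ↔ s.eval v = t.eval v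
    rw [Tm.eval_tr s (fun c h => hc c (Or.inl h)) h, Tm.eval_tr t (fun c h => hc c (Or.inr h)) h]
  | lt s t =>
    intro hc d v w h
    change (s.tr idx d).eval w < (t.tr idx d).eval w ↔ s.eval v < t.eval v
    rw [Tm.eval_tr s (fun c h => hc c (Or.inl h)) h, Tm.eval_tr t (fun c h => hc c (Or.inr h)) h]
  | mem i t =>
    intro hc d v w h
    change (t.tr idx d).eval w ∈ A i ↔ t.eval v ∈ A i
    rw [Tm.eval_tr t hc h]
  | neg φ ih =>
    intro hc d v w h
    exact not_congr (ih hc d v w h)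
  | and φ ψ h1 h2 =>
    intro hc d v w h
    exact and_congr (h1 (fun c h => hc c (Or.inl h)) d v w h)
      (h2 (fun c h => hc c (Or.inr h)) d v w h)
  | ball t φ ih =>
    intro hc d v w h
    have e1 : ∀ x : M, (t.tr idx d).shift.eval (scons x w) = t.eval v := fun x => by
      rw [NTerm.eval_shift]
      exact Tm.eval_tr t (fun c h => hc c (Or.inl h)) h
    change (∀ x : M, ¬ ((NTerm.var 0).eval (scons x w) < (t.tr idx d).shift.eval (scons x w) ∧
      ¬ (φ.tr idx (d + 1)).eval 𝒮 A (scons x w))) ↔ ∀ x : M, x < t.eval v → φ.eval A (Pool.Agent.Helper70.BRT.cons x v)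
    refine forall_congr' fun x => ?_
    rw [e1, ih (fun c h => hc c (Or.inr h)) (d + 1) _ _ (h.cons x)]
    change ¬ (x < t.eval v ∧ ¬ φ.eval A (Pool.Agent.Helper70.BRT.cons x v)) ↔ _
    tauto

/-- an assignment coding constants -/
def wbase (cs : ℕ → M) : ℕ → M := fun n => if n % 2 = 0 then 0 else cs (n / 2)

theorem trRel_zero (cs : ℕ → M) : TrRel cs 0 (fun _ => 0) (wbase cs) := by
  refine ⟨fun i hi => absurd hi (Nat.not_lt_zero i), fun i => ?_, fun j => ?_⟩
  · unfold wbase
    have : (0 + 2 * i) % 2 = 0 := by omega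
    rw [if_pos this]
  · unfold wbase
    have h1 : ¬ (0 + 2 * j + 1) % 2 = 0 := by omega
    have h2 : (0 + 2 * j + 1) / 2 = j := by omega
    rw [if_neg h1, h2]

theorem exists_idx {S : Set M} (hS : S.Countable) : ∃ (cs : ℕ → M) (idx : M → ℕ),
    ∀ c ∈ S, cs (idx c) = c := by
  classical
  obtain ⟨cs, hcs⟩ := Set.countable_iff_exists_subset_range.mp hS
  have h : ∀ c : M, ∃ i : ℕ, c ∈ S → cs i = c := by
    intro c
    by_cases hc : c ∈ S
    · obtain ⟨i, hi⟩ := hcs hc
      exact ⟨i, fun _ => hi⟩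
    · exact ⟨0, fun h => absurd h hc⟩
  choose idx hidx using h
  exact ⟨cs, idx, hidx⟩

theorem form_exN_iff (𝒮 : Set (Set M)) (φ : Form) (V : ℕ → Set M) (v : ℕ → M) :
    (Form.exN φ).eval 𝒮 V v ↔ ∃ x : M, φ.eval 𝒮 V (scons x v) := by
  change (¬ ∀ x : M, ¬ φ.eval 𝒮 V (scons x v)) ↔ _
  rw [not_forall]
  simp only [not_not]

/-- Two `Σ₁` predicates are given by `Σ⁰₁` formulas with a common assignment. -/
theorem sig1_form (𝒮 : Set (Set M)) {P Q : M → Prop} (hP : Sig1 A P) (hQ : Sig1 A Q) :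
    ∃ (φ ψ : Form) (v : ℕ → M), IsSigma01 φ ∧ IsSigma01 ψ ∧
      (∀ x, P x ↔ φ.eval 𝒮 A (scons x v)) ∧ ∀ x, Q x ↔ ψ.eval 𝒮 A (scons x v) := by
  obtain ⟨φ, hφ⟩ := hP
  obtain ⟨ψ, hψ⟩ := hQ
  obtain ⟨cs, idx, hidx⟩ := exists_idx (φ.consts_countable.union ψ.consts_countable)
  refine ⟨.exN (φ.tr idx 2), .exN (ψ.tr idx 2), wbase cs, ⟨_, φ.tr_delta idx 2, rfl⟩,
    ⟨_, ψ.tr_delta idx 2, rfl⟩, fun x => ?_, fun x => ?_⟩
  · rw [hφ, form_exN_iff]
    refine exists_congr fun y => ?_
    rw [env_self]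
    exact (Fm.eval_tr 𝒮 A φ (fun c h => hidx c (Or.inl h)) 2 _ _
      (((trRel_zero cs).cons x).cons y)).symm
  · rw [hψ, form_exN_iff]
    refine exists_congr fun y => ?_
    rw [env_self]
    exact (Fm.eval_tr 𝒮 A ψ (fun c h => hidx c (Or.inr h)) 2 _ _
      (((trRel_zero cs).cons x).cons y)).symm

/-- `RCA₀` gives `Σ₁` induction for all oracles in `𝒮`. -/
theorem is1_of_rca {𝒮 : Set (Set M)} (h : IsRCA0 M 𝒮) (hA : ∀ i, A i ∈ 𝒮) : IS1 A := by
  refine ⟨fun P hP h0 hs => ?_⟩
  obtain ⟨φ, -, v, hφ, -, h1, -⟩ := sig1_form 𝒮 hP hP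
  intro x
  rw [h1]
  refine h.induction φ hφ A hA v ((h1 0).mp h0) ?_ x
  intro y hy
  exact (h1 _).mp (hs y ((h1 y).mpr hy))

/-- `Δ₁` sets are in `𝒮`. -/
theorem mem_of_rca {𝒮 : Set (Set M)} (h : IsRCA0 M 𝒮) (hA : ∀ i, A i ∈ 𝒮) {P : M → Prop}
    (hP : RecP A P) : {x | P x} ∈ 𝒮 := by
  obtain ⟨φ, ψ, v, hφ, hψ, h1, h2⟩ := sig1_form 𝒮 hP.1 hP.2
  have h3 := h.comprehension φ ψ hφ hψ A hA v (fun x => by
    rw [← h1, ← h2, not_not])
  have e : {x | P x} = {x | φ.eval 𝒮 A (scons x v)} := by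
    ext x
    exact h1 x
  rw [e]
  exact h3

end Pool.Agent.Helper70.BRT
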