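import Pool.Agent.Helper18.BRT.COD1

/-! # HIRST: `BRT` implies `BΣ⁰₂` over `RCA₀` -/

namespace Pool.Agent.Helper70.BRT

universe u

open BRTStmt

section php

variable {M : Type u} [PModel M]

/-- `c` codes an injective relation from `{i < n}` to `{j < m}`. -/
def HInj (n m c : M) : Prop :=
  (∀ i, i < n → ∃ j, j < m ∧ el (pair i j) c) ∧
  ∀ i, i < n → ∀ i', i' < n → ∀ j, j < m → el (pair i j) c → el (pair i' j) c → i = i'

theorem HIRST_inj_rec {bd : M → M} (hC : CodAPI M bd) (hM : IS1 (fun _ : ℕ => (∅ : Set M))) :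
    RecP (fun _ : ℕ => (∅ : Set M)) (fun z : (M × M) × M => HInj z.1.1 z.1.2 z.2) := by
  have hc := hM.coll1
  refine RecP.and ?_ ?_
  · refine RecP.ball hc PMap.id.fst.fst.rec
      (R := fun (z : (M × M) × M) i => ∃ j, j < z.1.2 ∧ el (pair i j) z.2) ?_
    refine RecP.bex hc PMap.id.fst.fst.snd.rec
      (R := fun (z : ((M × M) × M) × M) j => el (pair z.2 j) z.1.2) ?_
    exact hC.el_rec.comp ((Rec.pair PMap.id.fst.snd.rec PMap.id.snd.rec).prodMk
      PMap.id.fst.fst.snd.rec)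
  · refine RecP.ball hc PMap.id.fst.fst.rec
      (R := fun (z : (M × M) × M) i => ∀ i', i' < z.1.1 → ∀ j, j < z.1.2 →
        el (pair i j) z.2 → el (pair i' j) z.2 → i = i') ?_
    refine RecP.ball hc PMap.id.fst.fst.fst.rec
      (R := fun (z : ((M × M) × M) × M) i' => ∀ j, j < z.1.1.2 →
        el (pair z.2 j) z.1.2 → el (pair i' j) z.1.2 → z.2 = i') ?_
    refine RecP.ball hc PMap.id.fst.fst.fst.snd.rec
      (R := fun (z : (((M × M) × M) × M) × M) j =>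
        el (pair z.1.2 j) z.1.1.2 → el (pair z.2 j) z.1.1.2 → z.1.2 = z.2) ?_
    refine RecP.imp ?_ (RecP.imp ?_ ?_)
    · exact hC.el_rec.comp ((Rec.pair PMap.id.fst.fst.snd.rec PMap.id.snd.rec).prodMk
        PMap.id.fst.fst.fst.snd.rec)
    · exact hC.el_rec.comp ((Rec.pair PMap.id.fst.snd.rec PMap.id.snd.rec).prodMk
        PMap.id.fst.fst.fst.snd.rec)
    · exact RecP.eq PMap.id.fst.fst.snd.rec PMap.id.fst.snd.rec

/-- The pigeonhole principle for coded relations. -/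
theorem HIRST_php {bd : M → M} (hC : CodAPI M bd) (hM : IS1 (fun _ : ℕ => (∅ : Set M))) :
    ∀ m c : M, ¬ HInj (m + 1) m c := by
  refine hM.indPi (P := fun m => ∀ c : M, ¬ HInj (m + 1) m c) ?_ ?_ ?_
  · refine Pi1.all (R := fun m c => ¬ HInj (m + 1) m c) (RecP.pi1 (RecP.not ?_))
    exact (HIRST_inj_rec hC hM).comp (((PMap.id.fst.rec.add (Rec.const 1)).prodMk
      PMap.id.fst.rec).prodMk PMap.id.snd.rec)
  · intro c h
    obtain ⟨j, hj, -⟩ := h.1 0 (by rw [zero_add]; exact PModel.zero_lt_one'')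
    exact not_lt_zero'' j hj
  · intro m ih c h
    -- the preimage of the last value
    have hex : ∃ i₀ : M, ∀ i, i < m + 1 + 1 → el (pair i m) c → i = i₀ := by
      by_cases hi : ∃ i, i < m + 1 + 1 ∧ el (pair i m) c
      · obtain ⟨i, hi1, hi2⟩ := hi
        exact ⟨i, fun i' hi' he => h.2 i' hi' i hi1 m (lt_add_one' m) he hi2⟩
      · exact ⟨0, fun i hi1 hi2 => absurd ⟨i, hi1, hi2⟩ hi⟩
    obtain ⟨i₀, hi₀⟩ := hex
    -- the new relation
    let P : M → Prop := fun p => ∃ i, i < m + 1 ∧ ∃ j, j < m ∧ p = pair i j ∧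
      ((i ≠ i₀ ∧ el (pair i j) c) ∨ (i = i₀ ∧ el (pair (m + 1) j) c))
    have hP : RecP (fun _ : ℕ => (∅ : Set M)) P := by
      refine RecP.bex hM.coll1 (Rec.const (m + 1))
        (R := fun (p : M) i => ∃ j, j < m ∧ p = pair i j ∧
          ((i ≠ i₀ ∧ el (pair i j) c) ∨ (i = i₀ ∧ el (pair (m + 1) j) c))) ?_
      refine RecP.bex hM.coll1 (Rec.const m)
        (R := fun (z : M × M) j => z.1 = pair z.2 j ∧
          ((z.2 ≠ i₀ ∧ el (pair z.2 j) c) ∨ (z.2 = i₀ ∧ el (pair (m + 1) j) c))) ?_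
      refine RecP.and (RecP.eq PMap.id.fst.fst.rec (Rec.pair PMap.id.fst.snd.rec PMap.id.snd.rec))
        (RecP.or (RecP.and (RecP.not (RecP.eq PMap.id.fst.snd.rec (Rec.const i₀))) ?_)
          (RecP.and (RecP.eq PMap.id.fst.snd.rec (Rec.const i₀)) ?_))
      · exact hC.el_rec.comp ((Rec.pair PMap.id.fst.snd.rec PMap.id.snd.rec).prodMk (Rec.const c))
      · exact hC.el_rec.comp ((Rec.pair (Rec.const (m + 1)) PMap.id.snd.rec).prodMk (Rec.const c))
    have hspec := hC.mk_spec _ hM.base P hP (pair (m + 1) m)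
    have hspec' : ∀ i j, i < m + 1 → j < m → (el (pair i j) (mk (pair (m + 1) m) P) ↔
        ((i ≠ i₀ ∧ el (pair i j) c) ∨ (i = i₀ ∧ el (pair (m + 1) j) c))) := by
      intro i j hi hj
      rw [hspec]
      constructor
      · rintro ⟨-, i', -, j', -, he, h3⟩
        obtain ⟨rfl, rfl⟩ := pair_inj he
        exact h3
      · intro h3
        exact ⟨pair_lt_aux (add_lt_add hi hj), i, hi, j, hj, rfl, h3⟩
    refine ih (mk (pair (m + 1) m) P) ⟨?_, ?_⟩
    · intro i hi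
      by_cases hii : i = i₀
      · obtain ⟨j, hj, hel⟩ := h.1 (m + 1) (lt_add_one' _)
        have hjm : j ≠ m := by
          rintro rfl
          have h4 := hi₀ _ (lt_add_one' _) hel
          rw [hii, ← h4] at hi
          exact lt_irrefl _ hi
        have hj' : j < m := lt_of_le_of_ne (lt_add_one_iff'.mp hj) hjm
        exact ⟨j, hj', (hspec' i j hi hj').mpr (Or.inr ⟨hii, hel⟩)⟩
      · obtain ⟨j, hj, hel⟩ := h.1 i (hi.trans (lt_add_one' _))
        have hjm : j ≠ m := by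
          rintro rfl
          exact hii (hi₀ _ (hi.trans (lt_add_one' _)) hel)
        have hj' : j < m := lt_of_le_of_ne (lt_add_one_iff'.mp hj) hjm
        exact ⟨j, hj', (hspec' i j hi hj').mpr (Or.inl ⟨hii, hel⟩)⟩
    · intro i hi i' hi' j hj h1 h2
      rw [hspec' i j hi hj] at h1
      rw [hspec' i' j hi' hj] at h2
      have hj2 : j < m + 1 := hj.trans (lt_add_one' m)
      have hi2 := hi.trans (lt_add_one' (m + 1))
      have hi2' := hi'.trans (lt_add_one' (m + 1))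
      rcases h1 with ⟨a1, b1⟩ | ⟨a1, b1⟩ <;> rcases h2 with ⟨a2, b2⟩ | ⟨a2, b2⟩
      · exact h.2 i hi2 i' hi2' j hj2 b1 b2
      · have h5 := h.2 i hi2 (m + 1) (lt_add_one' _) j hj2 b1 b2
        rw [h5] at hi
        exact absurd hi (lt_irrefl _)
      · have h5 := h.2 i' hi2' (m + 1) (lt_add_one' _) j hj2 b2 b1
        rw [h5] at hi'
        exact absurd hi' (lt_irrefl _)
      · rw [a1, a2]

end php

section rt

variable {M : Type u} [PModel M] {𝒮 : Set (Set M)}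

/-- Infinite pigeonhole principle. -/
theorem HIRST_rt (hR : IsRCA0 M 𝒮) (hB : BRT M 𝒮) {A : ℕ → Set M} (hA : ∀ i, A i ∈ 𝒮)
    {g : M → M} (hg : Rec A g) {a : M} (hga : ∀ x, g x < a) :
    ∃ k, k < a ∧ ∀ x, ∃ y, x < y ∧ g y = k := by
  have hI := is1_of_rca hR hA
  obtain ⟨bd, hC⟩ := S1.st_COD1 M hI.pure
  -- the graph
  have hGg : {p : M | ∃ x, x < p + 1 ∧ ∃ j, j < p + 1 ∧ p = pair x j ∧ g x = j} ∈ 𝒮 := by
    refine mem_of_rca hR hA ?_
    refine RecP.bex hI.coll1 (PMap.id.rec.add (Rec.const 1))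
      (R := fun (p : M) x => ∃ j, j < p + 1 ∧ p = pair x j ∧ g x = j) ?_
    refine RecP.bex hI.coll1 (PMap.id.fst.rec.add (Rec.const 1))
      (R := fun (z : M × M) j => z.1 = pair z.2 j ∧ g z.2 = j) ?_
    refine RecP.and (RecP.eq PMap.id.fst.fst.rec (Rec.pair PMap.id.fst.snd.rec PMap.id.snd.rec)) ?_
    exact RecP.eq (hg.comp PMap.id.fst.snd.rec) PMap.id.snd.rec
  have hGmem : ∀ x j : M, pair x j ∈ {p : M | ∃ x, x < p + 1 ∧ ∃ j, j < p + 1 ∧ p = pair x j ∧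
      g x = j} ↔ g x = j := by
    intro x j
    constructor
    · rintro ⟨x', -, j', -, he, h⟩
      obtain ⟨rfl, rfl⟩ := pair_inj he
      exact h
    · intro h
      exact ⟨x, lt_add_one_iff'.mpr (le_pair_left x j), j, lt_add_one_iff'.mpr (le_pair_right x j),
        rfl, h⟩
  -- the colouring
  have hF : {p : M | ∃ x, x < p + 1 ∧ ∃ y, y < p + 1 ∧ p = pair x y ∧ g x ≠ g y} ∈ 𝒮 := by
    refine mem_of_rca hR hA ?_
    refine RecP.bex hI.coll1 (PMap.id.rec.add (Rec.const 1))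
      (R := fun (p : M) x => ∃ y, y < p + 1 ∧ p = pair x y ∧ g x ≠ g y) ?_
    refine RecP.bex hI.coll1 (PMap.id.fst.rec.add (Rec.const 1))
      (R := fun (z : M × M) y => z.1 = pair z.2 y ∧ g z.2 ≠ g y) ?_
    refine RecP.and (RecP.eq PMap.id.fst.fst.rec (Rec.pair PMap.id.fst.snd.rec PMap.id.snd.rec)) ?_
    exact RecP.not (RecP.eq (hg.comp PMap.id.fst.snd.rec) (hg.comp PMap.id.snd.rec))
  have hFmem : ∀ x y : M, pair x y ∈ {p : M | ∃ x, x < p + 1 ∧ ∃ y, y < p + 1 ∧ p = pair x y ∧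
      g x ≠ g y} ↔ g x ≠ g y := by
    intro x y
    constructor
    · rintro ⟨x', -, j', -, he, h⟩
      obtain ⟨rfl, rfl⟩ := pair_inj he
      exact h
    · intro h
      exact ⟨x, lt_add_one_iff'.mpr (le_pair_left x y), y, lt_add_one_iff'.mpr (le_pair_right x y),
        rfl, h⟩
  generalize {p : M | ∃ x, x < p + 1 ∧ ∃ y, y < p + 1 ∧ p = pair x y ∧ g x ≠ g y} = F at hF hFmem
  generalize {p : M | ∃ x, x < p + 1 ∧ ∃ j, j < p + 1 ∧ p = pair x j ∧ g x = j} = Gg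
    at hGg hGmem
  obtain ⟨H, -, hHu, hH0⟩ := hB F hF (a + 1) (by
    rintro X hX hX1 ⟨G, hG, hG1, hG2⟩
    let A' : ℕ → Set M := fun i => if i = 0 then Gg else if i = 1 then G else X
    have hA' : ∀ i, A' i ∈ 𝒮 := by
      intro i
      change (if i = 0 then Gg else if i = 1 then G else X) ∈ 𝒮
      split_ifs
      · exact hGg
      · exact hG
      · exact hX
    have hI' := is1_of_rca hR hA'
    obtain ⟨b, hb⟩ := hI'.coll1 (fun z : M × M => z.2 ∈ A' 2 ∧ pair z.1 z.2 ∈ A' 1)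
      ((D0.mem 2 PMap.id.snd.toPoly).and (D0.mem 1 (Poly.pair PMap.id.fst.toPoly
        PMap.id.snd.toPoly))).sig1 (a + 1) (by
        intro i hi
        obtain ⟨x, hx, -⟩ := hG1 i hi
        exact ⟨x, hx.1, hx.2⟩)
    let P : M → Prop := fun p => ∃ i, i < a + 1 ∧ ∃ j, j < a ∧ p = pair i j ∧
      ∃ x, x < b ∧ x ∈ A' 2 ∧ pair i x ∈ A' 1 ∧ pair x j ∈ A' 0
    have hP : RecP A' P := by
      refine RecP.bex hI'.coll1 (Rec.const (a + 1))
        (R := fun (p : M) i => ∃ j, j < a ∧ p = pair i j ∧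
          ∃ x, x < b ∧ x ∈ A' 2 ∧ pair i x ∈ A' 1 ∧ pair x j ∈ A' 0) ?_
      refine RecP.bex hI'.coll1 (Rec.const a)
        (R := fun (z : M × M) j => z.1 = pair z.2 j ∧
          ∃ x, x < b ∧ x ∈ A' 2 ∧ pair z.2 x ∈ A' 1 ∧ pair x j ∈ A' 0) ?_
      refine RecP.and (RecP.eq PMap.id.fst.fst.rec (Rec.pair PMap.id.fst.snd.rec PMap.id.snd.rec)) ?_
      refine RecP.bex hI'.coll1 (Rec.const b)
        (R := fun (z : (M × M) × M) x => x ∈ A' 2 ∧ pair z.1.2 x ∈ A' 1 ∧ pair x z.2 ∈ A' 0) ?_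
      refine RecP.and (RecP.mem 2 PMap.id.snd.rec) (RecP.and (RecP.mem 1 ?_) (RecP.mem 0 ?_))
      · exact Rec.pair PMap.id.fst.fst.snd.rec PMap.id.snd.rec
      · exact Rec.pair PMap.id.snd.rec PMap.id.fst.snd.rec
    have hspec := hC.mk_spec A' hI'.base P hP (pair (a + 1) a)
    have hspec' : ∀ i j, i < a + 1 → j < a → (el (pair i j) (mk (pair (a + 1) a) P) ↔
        ∃ x, x < b ∧ x ∈ X ∧ pair i x ∈ G ∧ g x = j) := by
      intro i j hi hj
      rw [hspec]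
      constructor
      · rintro ⟨-, i', -, j', -, he, x, hx, h1, h2, h3⟩
        obtain ⟨rfl, rfl⟩ := pair_inj he
        exact ⟨x, hx, h1, h2, (hGmem _ _).mp h3⟩
      · rintro ⟨x, hx, h1, h2, h3⟩
        exact ⟨pair_lt_aux (add_lt_add hi hj), i, hi, j, hj, rfl, x, hx, h1, h2,
          (hGmem _ _).mpr h3⟩
    refine HIRST_php hC hI.pure a (mk (pair (a + 1) a) P) ⟨?_, ?_⟩
    · intro i hi
      obtain ⟨x, hxb, hx1, hx2⟩ := hb i hi
      exact ⟨g x, hga x, (hspec' i (g x) hi (hga x)).mpr ⟨x, hxb, hx1, hx2, rfl⟩⟩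
    · intro i hi i' hi' j hj h1 h2
      rw [hspec' i j hi hj] at h1
      rw [hspec' i' j hi' hj] at h2
      obtain ⟨x, -, hx1, hx2, hx3⟩ := h1
      obtain ⟨x', -, hx1', hx2', hx3'⟩ := h2
      have hxx : x = x' := by
        rcases lt_trichotomy x x' with h | h | h
        · exact absurd (hx3.trans hx3'.symm) ((hFmem _ _).mp (hX1 x hx1 x' hx1' h))
        · exact h
        · exact absurd (hx3'.trans hx3.symm) ((hFmem _ _).mp (hX1 x' hx1' x hx1 h))
      subst hxx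
      obtain ⟨i₁, -, hu⟩ := hG2 x hx1
      rw [hu i ⟨hi, hx2⟩, hu i' ⟨hi', hx2'⟩])
  -- the homogeneous set
  obtain ⟨x₀, hx₀, -⟩ := hHu 0
  refine ⟨g x₀, hga x₀, fun x => ?_⟩
  obtain ⟨y, hy, hxy⟩ := hHu (x + x₀)
  refine ⟨y, lt_of_le_of_lt le_self_add hxy, ?_⟩
  have h0 : x₀ < y := lt_of_le_of_lt le_add_self hxy
  by_contra hne
  exact hH0 x₀ hx₀ y hy h0 ((hFmem _ _).mpr fun h => hne h.symm)

/-- `Π₁` collection. -/
theorem HIRST_coll (hR : IsRCA0 M 𝒮) (hB : BRT M 𝒮) {A : ℕ → Set M} (hA : ∀ i, A i ∈ 𝒮)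
    (R : M × M → Prop) (hRp : Pi1 A R) (a : M) (h : ∀ x < a, ∃ y, R (x, y)) :
    ∃ b, ∀ x < a, ∃ y < b, R (x, y) := by
  by_contra hno
  push Not at hno
  have hI := is1_of_rca hR hA
  obtain ⟨Q, hQ, hRQ⟩ := sig1_iff.mp hRp
  have h1 : ∀ b : M, ∃ d, ∃ x, x < a ∧ ∀ p, p < b → ∃ w, w < d ∧ Q ((x, p), w) := by
    intro b
    obtain ⟨x, hx, hxb⟩ := hno b
    obtain ⟨d, hd⟩ := hI.coll1 (fun z : M × M => Q ((x, z.1), z.2))
      (hQ.comp (((PMap.const x).prodMk PMap.id.fst).prodMk PMap.id.snd)).sig1 b (by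
        intro p hp
        exact (hRQ (x, p)).mp (hxb p hp))
    exact ⟨d, x, hx, hd⟩
  have hrel : RecP A (fun z : M × M => ∃ x, x < a ∧ ∀ p, p < z.1 → ∃ w, w < z.2 ∧
      Q ((x, p), w)) := by
    refine D0.recP ?_
    refine D0.bex (R := fun (z : M × M) x => ∀ p, p < z.1 → ∃ w, w < z.2 ∧ Q ((x, p), w))
      (Poly.const a) ?_
    refine D0.ball (R := fun (z : (M × M) × M) p => ∃ w, w < z.1.2 ∧ Q ((z.2, p), w))
      PMap.id.fst.fst.toPoly ?_
    refine D0.bex (R := fun (z : ((M × M) × M) × M) w => Q ((z.1.2, z.2), w))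
      PMap.id.fst.fst.snd.toPoly ?_
    exact hQ.comp ((PMap.id.fst.fst.snd.prodMk PMap.id.fst.snd).prodMk PMap.id.snd)
  let D : M → M := fun b => mu fun d => ∃ x, x < a ∧ ∀ p, p < b → ∃ w, w < d ∧ Q ((x, p), w)
  have hD : Rec A D := Rec.mu (R := fun (b : M) d => ∃ x, x < a ∧ ∀ p, p < b → ∃ w, w < d ∧
    Q ((x, p), w)) hI.base hrel h1
  have hDs : ∀ b, ∃ x, x < a ∧ ∀ p, p < b → ∃ w, w < D b ∧ Q ((x, p), w) := fun b =>
    (mu_spec hI.base (RecP.comp (F := fun d : M => (b, d)) hrel ((Rec.const b).prodMk Rec.id))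
      (h1 b)).1
  have hrel2 : RecP A (fun z : M × M => z.2 < a ∧ ∀ p, p < z.1 → ∃ w, w < D z.1 ∧
      Q ((z.2, p), w)) := by
    refine RecP.and (RecP.lt PMap.id.snd.rec (Rec.const a)) ?_
    refine RecP.ball hI.coll1 PMap.id.fst.rec
      (R := fun (z : M × M) p => ∃ w, w < D z.1 ∧ Q ((z.2, p), w)) ?_
    refine RecP.bex hI.coll1 (hD.comp PMap.id.fst.fst.rec)
      (R := fun (z : (M × M) × M) w => Q ((z.1.2, z.2), w)) ?_
    exact (hQ.comp ((PMap.id.fst.fst.snd.prodMk PMap.id.fst.snd).prodMk PMap.id.snd)).recP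
  let g : M → M := fun b => mu fun x => x < a ∧ ∀ p, p < b → ∃ w, w < D b ∧ Q ((x, p), w)
  have hg : Rec A g := Rec.mu (R := fun (b : M) x => x < a ∧ ∀ p, p < b → ∃ w, w < D b ∧
    Q ((x, p), w)) hI.base hrel2 hDs
  have hgs : ∀ b, g b < a ∧ ∀ p, p < b → ∃ w, w < D b ∧ Q ((g b, p), w) := fun b =>
    (mu_spec hI.base (RecP.comp (F := fun d : M => (b, d)) hrel2 ((Rec.const b).prodMk Rec.id))
      (hDs b)).1
  obtain ⟨k, hk, hku⟩ := HIRST_rt hR hB hA hg (fun x => (hgs x).1)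
  obtain ⟨p, hp⟩ := h k hk
  obtain ⟨b, hb, hgb⟩ := hku p
  obtain ⟨w, -, hw⟩ := (hgs b).2 p hb
  rw [hgb] at hw
  exact (hRQ (k, p)).mpr ⟨w, hw⟩ hp

theorem HIRST_term {Γ : Type u} [Ctx M Γ] (t : NTerm) (F : ℕ → Γ → M) (hF : ∀ i, Poly (F i)) :
    Poly (fun g => t.eval (fun i => F i g)) := by
  induction t with
  | var i => exact hF i
  | zero => exact Poly.const 0
  | one => exact Poly.const 1
  | add s t hs ht => exact hs.add ht
  | mul s t hs ht => exact hs.mul ht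

theorem HIRST_D0 (𝒮 : Set (Set M)) (A : ℕ → Set M) {ψ : Form} (hψ : IsDelta00 ψ) :
    ∀ (Γ : Type u) [Ctx M Γ] (F : ℕ → Γ → M), (∀ i, Poly (F i)) →
      D0 A (fun g => ψ.eval 𝒮 A (fun i => F i g)) := by
  induction hψ with
  | eq s t =>
    intro Γ _ F hF
    exact D0.eq (HIRST_term s F hF) (HIRST_term t F hF)
  | lt s t =>
    intro Γ _ F hF
    exact D0.lt (HIRST_term s F hF) (HIRST_term t F hF)
  | mem t X =>
    intro Γ _ F hF
    exact D0.mem X (HIRST_term t F hF)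
  | neg _ ih =>
    intro Γ _ F hF
    exact (ih Γ F hF).not
  | and _ _ ih1 ih2 =>
    intro Γ _ F hF
    exact (ih1 Γ F hF).and (ih2 Γ F hF)
  | @ball t φ _ ih =>
    intro Γ _ F hF
    let F' : ℕ → Γ × M → M := fun i => match i with
      | 0 => fun z => z.2
      | i + 1 => fun z => F i z.1
    have hF' : ∀ i, Poly (F' i) := by
      intro i
      match i with
      | 0 => exact PMap.id.snd.toPoly
      | i + 1 => exact (hF i).comp PMap.id.fst
    have h1 := ih (Γ × M) F' hF'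
    have e : ∀ (g : Γ) (x : M), (fun i => F' i (g, x)) = scons x (fun i => F i g) := by
      intro g x
      funext i
      match i with
      | 0 => rfl
      | i + 1 => rfl
    refine D0.congr (D0.ball (R := fun (g : Γ) x => φ.eval 𝒮 A (scons x (fun i => F i g)))
      (HIRST_term t F hF) (h1.congr fun z => ?_)) ?_
    · rw [← e]
    · intro g
      have h2 : (Form.allN (.imp (.lt (.var 0) t.shift) φ)).eval 𝒮 A (fun i => F i g) ↔
          ∀ x : M, ¬ ((NTerm.var 0).eval (scons x (fun i => F i g)) <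
            t.shift.eval (scons x (fun i => F i g)) ∧
              ¬ φ.eval 𝒮 A (scons x (fun i => F i g))) := Iff.rfl
      rw [h2]
      refine forall_congr' fun x => ?_
      rw [NTerm.eval_shift]
      change ¬ (x < t.eval (fun i => F i g) ∧ ¬ φ.eval 𝒮 A (scons x (fun i => F i g))) ↔ _
      tauto

theorem HIRST_main (hR : IsRCA0 M 𝒮) (hB : BRT M 𝒮) : BSigma02 M 𝒮 := by
  rintro _ ⟨ψ, hψ, rfl⟩ V hV v a h
  have e1 : ∀ x y : M, (Form.exN (.allN ψ)).eval 𝒮 V (scons y (scons x v)) ↔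
      ∃ z : M, ∀ w : M, ψ.eval 𝒮 V (scons w (scons z (scons y (scons x v)))) := by
    intro x y
    rw [form_exN_iff]
    rfl
  simp only [e1] at h ⊢
  let F : ℕ → ((((M × M) × M) × M) × M) → M := fun i => match i with
    | 0 => fun g => g.1.1.2
    | 1 => fun g => g.2
    | 2 => fun g => g.1.2
    | 3 => fun g => g.1.1.1.1
    | i + 4 => fun _ => v i
  have hF : ∀ i, Poly (F i) := by
    intro i
    match i with
    | 0 => exact PMap.id.fst.fst.snd.toPoly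
    | 1 => exact PMap.id.snd.toPoly
    | 2 => exact PMap.id.fst.snd.toPoly
    | 3 => exact PMap.id.fst.fst.fst.fst.toPoly
    | i + 4 => exact Poly.const (v i)
  have hD := HIRST_D0 𝒮 V hψ _ F hF
  have e2 : ∀ x p w y z : M, (fun i => F i ((((x, p), w), y), z)) =
      scons w (scons z (scons y (scons x v))) := by
    intro x p w y z
    funext i
    match i with
    | 0 => rfl
    | 1 => rfl
    | 2 => rfl
    | 3 => rfl
    | i + 4 => rfl
  -- the relation on codes of pairs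
  have hrho : D0 V (fun g : (M × M) × M => ∃ y, y < g.1.2 + 1 ∧ ∃ z, z < g.1.2 + 1 ∧
      (g.1.2 = pair y z ∧ ψ.eval 𝒮 V (scons g.2 (scons z (scons y (scons g.1.1 v)))))) := by
    refine D0.bex (R := fun (g : (M × M) × M) y => ∃ z, z < g.1.2 + 1 ∧
      (g.1.2 = pair y z ∧ ψ.eval 𝒮 V (scons g.2 (scons z (scons y (scons g.1.1 v))))))
      (PMap.id.fst.snd.toPoly.add (Poly.const 1)) ?_
    refine D0.bex (R := fun (g : ((M × M) × M) × M) z =>
      (g.1.1.2 = pair g.2 z ∧ ψ.eval 𝒮 V (scons g.1.2 (scons z (scons g.2 (scons g.1.1.1 v))))))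
      (PMap.id.fst.fst.snd.toPoly.add (Poly.const 1)) ?_
    refine D0.and (D0.eq PMap.id.fst.fst.fst.snd.toPoly
      (Poly.pair PMap.id.fst.snd.toPoly PMap.id.snd.toPoly)) (hD.congr fun g => ?_)
    rw [← e2 g.1.1.1.1 g.1.1.1.2 g.1.1.2 g.1.2 g.2]
  have hPi : Pi1 V (fun g : M × M => ∀ w, ∃ y, y < g.2 + 1 ∧ ∃ z, z < g.2 + 1 ∧
      (g.2 = pair y z ∧ ψ.eval 𝒮 V (scons w (scons z (scons y (scons g.1 v)))))) :=
    Pi1.all (R := fun (g : M × M) w => ∃ y, y < g.2 + 1 ∧ ∃ z, z < g.2 + 1 ∧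
      (g.2 = pair y z ∧ ψ.eval 𝒮 V (scons w (scons z (scons y (scons g.1 v)))))) hrho.recP.pi1
  obtain ⟨b, hb⟩ := HIRST_coll hR hB hV _ hPi a (by
    intro x hx
    obtain ⟨y, z, hyz⟩ := h x hx
    exact ⟨pair y z, fun w => ⟨y, lt_add_one_iff'.mpr (le_pair_left y z), z,
      lt_add_one_iff'.mpr (le_pair_right y z), rfl, hyz w⟩⟩)
  refine ⟨b, fun x hx => ?_⟩
  obtain ⟨p, hp, hpw⟩ := hb x hx
  obtain ⟨y, -, z, -, hpe, -⟩ := hpw 0
  dsimp only at hpe hpw
  subst hpe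
  refine ⟨y, lt_of_le_of_lt (le_pair_left y z) hp, z, fun w => ?_⟩
  obtain ⟨y', -, z', -, he, hw⟩ := hpw w
  obtain ⟨rfl, rfl⟩ := pair_inj he
  exact hw

end rt

theorem st_HIRST (hP : ST_PMOD.{u}) : ST_HIRST.{u} := by
  intro M i0 i1 ia im il 𝒮 hR hB
  obtain ⟨I, h0, h1, h2, h3, h4⟩ := hP M i0 i1 ia im il hR.pminus
  subst h0 h1 h2 h3 h4
  exact HIRST_main hR hB

end Pool.Agent.Helper70.BRT
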