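import Pool.Agent.Helper18.BRT.IS1

/-! # SND: models of `RCA₀ + BΣ⁰₂` give `Nice` oracles -/

namespace Pool.Agent.Helper70.BRT

universe u

open BRTStmt

theorem SND_subst {M : Type u} [PModel M] (A : ℕ → Set M) (φ : Fm M) (w z : M) (u : ℕ → M) :
    (φ.subst (fun i => match i with | 0 => Tm.var 0 | i + 1 => Tm.var (i + 2))).eval A
      (cons w (cons z u)) ↔ φ.eval A (cons w u) := by
  rw [Fm.eval_subst]
  have e : (fun i => ((match i with | 0 => Tm.var 0 | i + 1 => Tm.var (i + 2) : Tm M)).eval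
      (cons w (cons z u))) = cons w u := by
    funext i
    rcases i with _ | i
    · rfl
    · rfl
  rw [e]

theorem SND_coll {M : Type u} [PModel M] {𝒮 : Set (Set M)} (hB : BSigma02 M 𝒮) {A : ℕ → Set M}
    (hA : ∀ i, A i ∈ 𝒮) (R : M × M → Prop) (hR : Pi1 A R) (a : M)
    (h : ∀ x < a, ∃ y, R (x, y)) : ∃ b, ∀ x < a, ∃ y < b, R (x, y) := by
  obtain ⟨φ, hφ⟩ := hR
  let φ' : Fm M := φ.subst (fun i => match i with | 0 => Tm.var 0 | i + 1 => Tm.var (i + 2))
  obtain ⟨cs, idx, hidx⟩ := exists_idx φ'.consts_countable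
  let ψ : Form := (Fm.neg φ').tr idx 4
  have key : ∀ x y : M, (Form.exN (.allN ψ)).eval 𝒮 A (scons y (scons x (wbase cs))) ↔ R (x, y) := by
    intro x y
    rw [form_exN_iff]
    have h1 : ∀ z : M, (Form.allN ψ).eval 𝒮 A (scons z (scons y (scons x (wbase cs)))) ↔
        ∀ w : M, ¬ φ.eval A (cons w (cons y (cons x (fun _ => 0)))) := by
      intro z
      refine forall_congr' fun w => ?_
      rw [Fm.eval_tr 𝒮 A (Fm.neg φ') hidx 4 _ _
        (((((trRel_zero cs).cons x).cons y).cons z).cons w)]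
      exact not_congr (SND_subst A φ w z _)
    have h2 : R (x, y) ↔ ∀ w : M, ¬ φ.eval A (cons w (cons y (cons x (fun _ => 0)))) := by
      have h3 := hφ (x, y)
      rw [env_cons, env_self] at h3
      rw [← not_exists]
      exact not_iff_not.mp (by rw [not_not]; exact h3)
    constructor
    · rintro ⟨z, hz⟩
      exact h2.mpr ((h1 z).mp hz)
    · intro hR
      exact ⟨0, (h1 0).mpr (h2.mp hR)⟩
  obtain ⟨b, hb⟩ := hB _ ⟨ψ, Fm.tr_delta idx _ 4, rfl⟩ A hA (wbase cs) a (fun x hx => by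
    obtain ⟨y, hy⟩ := h x hx
    exact ⟨y, (key x y).mpr hy⟩)
  refine ⟨b, fun x hx => ?_⟩
  obtain ⟨y, hy, hy2⟩ := hb x hx
  exact ⟨y, hy, (key x y).mp hy2⟩

theorem st_SND : ST_SND.{u} := by
  intro M _ 𝒮 hR hB A hA
  exact ⟨(is1_of_rca hR hA).ind, SND_coll hB hA⟩

end Pool.Agent.Helper70.BRT
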